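import Mathlib

/-!
# The sorting profile of extended promotion is not always unimodal

The poset `2 + 2 + 1` (two disjoint chains with two elements and an isolated point) has the profile
`30, 24, 30, 24, 12`.
-/

set_option autoImplicit false

namespace Pool.Agent.Results.MP_e89dd6_co.NotUnimodal

variable {n : ℕ}

/-- `lt` is the strict order of a partial order on `{0, …, n - 1}`. Every poset with `n` elements
is isomorphic to one of this form. -/
def IsStrictOrder (lt : Fin n → Fin n → Bool) : Prop :=
  (∀ x, lt x x = false) ∧ ∀ x y z, lt x y = true → lt y z = true → lt x z = true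

/-- A labeling: a bijection of the elements onto `{1, …, n}`. -/
def IsLabeling (L : Fin n → ℕ) : Prop := Set.BijOn L Set.univ (Set.Icc 1 n)

/-- Linear extensions of the order. -/
def IsLinearExtension (lt : Fin n → Fin n → Bool) (L : Fin n → ℕ) : Prop :=
  ∀ x y, lt x y = true → L x ≤ L y

/-- The `L`-successor of `x`: the element with the smallest label among the elements above `x`;
there is none if `x` is maximal. -/
def successor (lt : Fin n → Fin n → Bool) (L : Fin n → ℕ) (x : Fin n) : Option (Fin n) :=
  ((List.finRange n).filter (fun y => lt x y)).argmin L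

/-- The elements `x`, the successor of `x`, the successor of the successor of `x`, …, up to a
maximal element (at most `k + 1` elements). -/
def path (lt : Fin n → Fin n → Bool) (L : Fin n → ℕ) : ℕ → Fin n → List (Fin n)
  | 0, x => [x]
  | k + 1, x =>
    match successor lt L x with
    | none => [x]
    | some y => x :: path lt L k y

/-- The promotion chain `v₁, …, v_m`: it starts at the element with the label `1`. -/
def chain (lt : Fin n → Fin n → Bool) (L : Fin n → ℕ) : List (Fin n) :=
  match (List.finRange n).find? (fun x => L x = 1) with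
  | none => []
  | some x => path lt L n x

/-- Extended promotion: an element outside the chain loses `1`, an element `v_i` of the chain gets
the label of its successor minus `1`, and the last element of the chain gets the label `n`. -/
def promotion (lt : Fin n → Fin n → Bool) (L : Fin n → ℕ) (x : Fin n) : ℕ :=
  if x ∈ chain lt L then
    match successor lt L x with
    | none => n
    | some y => L y - 1
  else L x - 1

/-- `a_k`: the number of labelings which become linear extensions after `k` promotions. -/
noncomputable def a (lt : Fin n → Fin n → Bool) (k : ℕ) : ℕ :=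
  Set.ncard {L : Fin n → ℕ | IsLabeling L ∧ IsLinearExtension lt ((promotion lt)^[k] L)}

/-- The profile: `a_0, a_1 - a_0, …, a_{n-1} - a_{n-2}` (integers). -/
noncomputable def profile (lt : Fin n → Fin n → Bool) (k : ℕ) : ℤ :=
  if k = 0 then (a lt 0 : ℤ) else (a lt k : ℤ) - a lt (k - 1)

/-- Unimodality of `b 0, …, b (n - 1)`. -/
def Unimodal (n : ℕ) (b : ℕ → ℤ) : Prop :=
  ∃ j < n, (∀ i, i < j → b i ≤ b (i + 1)) ∧ ∀ i, j ≤ i → i + 1 < n → b (i + 1) ≤ b i

/-- The poset `2 + 2 + 1`: `0 < 3` and `1 < 4` are the only relations. -/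
def lt₅ (x y : Fin 5) : Bool := (x == 0 && y == 3) || (x == 1 && y == 4)

/-- the labeling of a permutation -/
def lab (σ : Equiv.Perm (Fin 5)) : Fin 5 → ℕ := fun x => (σ x : ℕ) + 1

lemma lab_injective : Function.Injective lab := by
  intro σ τ h
  ext x
  have := congrFun h x
  simp only [lab] at this
  omega

lemma isLabeling_iff (L : Fin 5 → ℕ) : IsLabeling L ↔ ∃ σ, lab σ = L := by
  constructor
  · rintro ⟨h1, h2, -⟩
    have hm : ∀ x, 1 ≤ L x ∧ L x ≤ 5 := fun x => h1 (Set.mem_univ x)
    let g : Fin 5 → Fin 5 := fun x => ⟨L x - 1, by have := hm x; omega⟩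
    have hg : Function.Injective g := by
      intro x y hxy
      apply h2 (Set.mem_univ _) (Set.mem_univ _)
      have := congrArg Fin.val hxy
      simp only [g] at this
      have hx := hm x
      have hy := hm y
      omega
    refine ⟨Equiv.ofBijective g (Finite.injective_iff_bijective.mp hg), ?_⟩
    funext x
    have hx := hm x
    simp only [lab, Equiv.ofBijective_apply, g]
    omega
  · rintro ⟨σ, rfl⟩
    refine ⟨fun x _ => ?_, fun x _ y _ h => ?_, fun y hy => ?_⟩
    · simp only [lab, Set.mem_Icc]
      have := (σ x).isLt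
      omega
    · apply σ.injective
      ext
      simp only [lab] at h
      omega
    · refine ⟨σ.symm ⟨y - 1, ?_⟩, Set.mem_univ _, ?_⟩
      · have := hy.1
        have := hy.2
        omega
      · simp only [lab, Equiv.apply_symm_apply]
        have := hy.1
        omega

instance (L : Fin 5 → ℕ) : Decidable (IsLinearExtension lt₅ L) := by
  unfold IsLinearExtension; infer_instance

lemma a_eq (k : ℕ) : a lt₅ k = ((Finset.univ : Finset (Equiv.Perm (Fin 5))).filter
    (fun σ => IsLinearExtension lt₅ ((promotion lt₅)^[k] (lab σ)))).card := by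
  rw [a, ← Set.ncard_coe_finset, ← Set.ncard_image_of_injective _ lab_injective]
  congr 1
  ext L
  simp only [Set.mem_ofPred_eq, isLabeling_iff, Finset.coe_filter, Finset.mem_univ, true_and,
    Set.mem_image]
  constructor
  · rintro ⟨⟨σ, rfl⟩, h⟩
    exact ⟨σ, h, rfl⟩
  · rintro ⟨σ, h, rfl⟩
    exact ⟨⟨σ, rfl⟩, h⟩

lemma a0 : a lt₅ 0 = 30 := by
  rw [a_eq]; decide +kernel

lemma a1 : a lt₅ 1 = 54 := by
  rw [a_eq]; decide +kernel

lemma a2 : a lt₅ 2 = 84 := by
  rw [a_eq]; decide +kernel

lemma a3 : a lt₅ 3 = 108 := by
  rw [a_eq]; decide +kernel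

lemma a4 : a lt₅ 4 = 120 := by
  rw [a_eq]; decide +kernel

/-- **The profile of the poset `2 + 2 + 1` is `30, 24, 30, 24, 12`, which is not unimodal.** -/
theorem result : IsStrictOrder lt₅ ∧
    (profile lt₅ 0 = 30 ∧ profile lt₅ 1 = 24 ∧ profile lt₅ 2 = 30 ∧ profile lt₅ 3 = 24 ∧
      profile lt₅ 4 = 12) ∧
    ¬ Unimodal 5 (profile lt₅) := by
  have h0 : profile lt₅ 0 = 30 := by simp [profile, a0]
  have h1 : profile lt₅ 1 = 24 := by simp [profile, a0, a1]
  have h2 : profile lt₅ 2 = 30 := by simp [profile, a1, a2]
  have h3 : profile lt₅ 3 = 24 := by simp [profile, a2, a3]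
  have h4 : profile lt₅ 4 = 12 := by simp [profile, a3, a4]
  refine ⟨⟨by decide, by decide⟩, ⟨h0, h1, h2, h3, h4⟩, ?_⟩
  rintro ⟨j, hj, hinc, hdec⟩
  rcases Nat.eq_zero_or_pos j with rfl | hj0
  · have := hdec 1 (by omega) (by omega)
    rw [h1, h2] at this
    omega
  · have := hinc 0 hj0
    rw [h0, h1] at this
    omega

end Pool.Agent.Results.MP_e89dd6_co.NotUnimodal
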